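import Pool.Agent.H971R3.FV.Stmts

set_option autoImplicit false

/-! # TaskSphere: the surface measures of the unit spheres -/

open MeasureTheory Set

namespace Pool.Agent.H023R3.FV

open Pool.Agent.H971R3.FV

lemma W_zero : W 0 = Real.pi / 2 := by simp [W]

lemma W_one : W 1 = 1 := by simp [W]

lemma W_rec (d : ℕ) : W (d + 2) = ((d : ℝ) + 1) / (d + 2) * W d := by
  unfold W
  rw [integral_cos_pow]
  simp

lemma W_gamma (d : ℕ) : W d * (2 * Real.Gamma ((d : ℝ) / 2 + 1)) =
    √Real.pi * Real.Gamma (((d : ℝ) + 1) / 2) := by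
  induction d using Nat.twoStepInduction with
  | zero =>
    rw [W_zero]
    have h1 : Real.Gamma (((0 : ℕ) : ℝ) / 2 + 1) = 1 := by simp
    have h2 : Real.Gamma ((((0 : ℕ) : ℝ) + 1) / 2) = √Real.pi := by
      rw [← Real.Gamma_one_half_eq]; norm_num
    rw [h1, h2, Real.mul_self_sqrt Real.pi_pos.le]
    ring
  | one =>
    rw [W_one]
    have h1 : Real.Gamma (((1 : ℕ) : ℝ) / 2 + 1) = 1 / 2 * √Real.pi := by
      rw [← Real.Gamma_one_half_eq, Nat.cast_one, Real.Gamma_add_one (by norm_num)]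
    have h2 : Real.Gamma ((((1 : ℕ) : ℝ) + 1) / 2) = 1 := by
      norm_num
    rw [h1, h2]
    ring
  | more d ih _ =>
    rw [W_rec]
    have h1 : Real.Gamma (((d + 2 : ℕ) : ℝ) / 2 + 1) =
        ((d : ℝ) / 2 + 1) * Real.Gamma ((d : ℝ) / 2 + 1) := by
      rw [← Real.Gamma_add_one (by positivity)]
      congr 1
      push_cast; ring
    have h2 : Real.Gamma ((((d + 2 : ℕ) : ℝ) + 1) / 2) =
        (((d : ℝ) + 1) / 2) * Real.Gamma (((d : ℝ) + 1) / 2) := by
      rw [← Real.Gamma_add_one (by positivity)]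
      congr 1
      push_cast; ring
    rw [h1, h2]
    have h3 : ((d : ℝ) + 2) ≠ 0 := by positivity
    calc ((d : ℝ) + 1) / (d + 2) * W d * (2 * (((d : ℝ) / 2 + 1) * Real.Gamma ((d : ℝ) / 2 + 1)))
        = ((d : ℝ) + 1) / 2 * (W d * (2 * Real.Gamma ((d : ℝ) / 2 + 1))) := by
          field_simp
      _ = _ := by rw [ih]; ring

lemma sphere_univ (n : ℕ) : (volume : Measure (EuclideanSpace ℝ (Fin (n + 1)))).toSphere univ =
    ENNReal.ofReal (2 * √Real.pi ^ (n + 1) / Real.Gamma (((n : ℝ) + 1) / 2)) := by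
  rw [Measure.toSphere_apply_univ, EuclideanSpace.volume_ball, finrank_euclideanSpace,
    Fintype.card_fin]
  have h1 : (((n + 1 : ℕ)) : ENNReal) = ENNReal.ofReal ((n : ℝ) + 1) := by
    rw [← Nat.cast_one (R := ℝ), ← Nat.cast_add, ENNReal.ofReal_natCast]
  rw [h1, ENNReal.ofReal_one, one_pow, one_mul, ← ENNReal.ofReal_mul (by positivity)]
  congr 1
  have h2 : Real.Gamma (((n + 1 : ℕ) : ℝ) / 2 + 1) =
      (((n : ℝ) + 1) / 2) * Real.Gamma (((n : ℝ) + 1) / 2) := by
    rw [Real.Gamma_add_one (by positivity)]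
    push_cast; ring
  rw [h2]
  have h3 : 0 < Real.Gamma (((n : ℝ) + 1) / 2) := Real.Gamma_pos_of_pos (by positivity)
  have h4 : ((n : ℝ) + 1) ≠ 0 := by positivity
  field_simp

theorem taskSphere : TaskSphere := by
  intro d _
  rw [sphere_univ (d + 1), sphere_univ d]
  have h0 : 0 < Real.Gamma (((d : ℝ) + 1) / 2) := Real.Gamma_pos_of_pos (by positivity)
  have h1 : 0 < Real.Gamma ((d : ℝ) / 2 + 1) := Real.Gamma_pos_of_pos (by positivity)
  have hW := W_gamma d
  have hWpos : 0 ≤ W d := by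
    have h2 : 0 < √Real.pi := Real.sqrt_pos.2 Real.pi_pos
    by_contra h
    push Not at h
    have : W d * (2 * Real.Gamma ((d : ℝ) / 2 + 1)) < 0 := by
      apply mul_neg_of_neg_of_pos h (by positivity)
    rw [hW] at this
    have : 0 < √Real.pi * Real.Gamma (((d : ℝ) + 1) / 2) := by positivity
    linarith
  rw [← ENNReal.ofReal_mul (by positivity)]
  congr 1
  have h3 : Real.Gamma (((d + 1 : ℕ) + 1 : ℝ) / 2) = Real.Gamma ((d : ℝ) / 2 + 1) := by
    congr 1
    push_cast; ring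
  rw [h3]
  have h5 : W d = √Real.pi * Real.Gamma (((d : ℝ) + 1) / 2) / (2 * Real.Gamma ((d : ℝ) / 2 + 1)) := by
    rw [eq_div_iff (by positivity)]; exact hW
  rw [h5]
  field_simp
  ring

end Pool.Agent.H023R3.FV
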